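import Mathlib

/-!
# A maximal ideal on omega which is the union of a strictly increasing omega_1-chain of ideals
(MP_ea2126_lc)
-/

namespace Pool.Agent.Results.MP_ea2126_lc.OmegaOneChain

open Filter Set Cardinal Ordinal

universe u

/-- Ideals on `ω`: families of subsets of `ℕ` containing the empty set but not `ℕ`, closed under
subsets and (finite) unions. -/
def IsIdeal (J : Set (Set ℕ)) : Prop :=
  ∅ ∈ J ∧ Set.univ ∉ J ∧ (∀ A ∈ J, ∀ B, B ⊆ A → B ∈ J) ∧ ∀ A ∈ J, ∀ B ∈ J, A ∪ B ∈ J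

/-- Maximal ideals: ideals that are not properly contained in another ideal. -/
def IsMaximalIdeal (J : Set (Set ℕ)) : Prop :=
  IsIdeal J ∧ ∀ J', IsIdeal J' → J ⊆ J' → J' = J

section Construction

variable {K : Type u}

/-- The Boolean combination of the members of `I` attached to a finite partial function. -/
def B (I : K → Set ℕ) (s : Finset K) (e : K → Bool) : Set ℕ :=
  {n | ∀ ξ ∈ s, (n ∈ I ξ ↔ e ξ = true)}

theorem exists_indep (A : K → Set ℕ) (hA : Function.Injective A) :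
    ∃ I : K → Set ℕ, ∀ s e, (B I s e).Infinite := by
  classical
  let φ : (Finset ℕ × Finset (Finset ℕ)) ≃ ℕ := Denumerable.eqv _
  let tr : K → ℕ → Finset ℕ := fun ξ m => (Finset.range m).filter fun k => k ∈ A ξ
  refine ⟨fun ξ => {n | ((φ.symm n).1.filter fun k => k ∈ A ξ) ∈ (φ.symm n).2}, fun s e => ?_⟩
  -- a bound separating the traces
  have hsep : ∀ ξ η : K, ξ ≠ η → ∃ k, ¬ (k ∈ A ξ ↔ k ∈ A η) := by
    intro ξ η h
    by_contra hcon
    push Not at hcon
    exact h (hA (Set.ext hcon))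
  let d : K → K → ℕ := fun ξ η => if h : ∃ k, ¬ (k ∈ A ξ ↔ k ∈ A η) then h.choose + 1 else 0
  let m : ℕ := (s ×ˢ s).sup fun p => d p.1 p.2
  have hm : ∀ ξ ∈ s, ∀ η ∈ s, ∀ m', m ≤ m' → tr ξ m' = tr η m' → ξ = η := by
    intro ξ hξ η hη m' hm' htr
    by_contra hne
    have hex := hsep ξ η hne
    have h1 : d ξ η = hex.choose + 1 := dif_pos hex
    have h2 : d ξ η ≤ m := Finset.le_sup (f := fun p : K × K => d p.1 p.2)
      (Finset.mk_mem_product hξ hη)
    apply hex.choose_spec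
    have h3 : hex.choose < m' := by omega
    have h4 : hex.choose ∈ tr ξ m' ↔ hex.choose ∈ tr η m' := by rw [htr]
    simpa [tr, h3] using h4
  refine Set.infinite_of_injective_forall_mem
    (f := fun i : ℕ => φ (Finset.range (m + i),
      (s.filter fun ξ => e ξ = true).image fun ξ => tr ξ (m + i))) ?_ ?_
  · intro i j hij
    have h1 := φ.injective hij
    have h2 := congrArg (fun p => p.1.card) h1
    simp only [Finset.card_range] at h2
    omega
  · intro i ξ hξ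
    show ((φ.symm (φ _)).1.filter fun k => k ∈ A ξ) ∈ (φ.symm (φ _)).2 ↔ _
    rw [Equiv.symm_apply_apply]
    show tr ξ (m + i) ∈ (s.filter fun ξ => e ξ = true).image (fun ξ => tr ξ (m + i)) ↔ _
    rw [Finset.mem_image]
    constructor
    · rintro ⟨η, hη, h⟩
      rw [Finset.mem_filter] at hη
      have := hm η hη.1 ξ hξ (m + i) (by omega) h
      rw [← this]; exact hη.2
    · intro h
      exact ⟨ξ, Finset.mem_filter.2 ⟨hξ, h⟩, rfl⟩

theorem exists_max (I : K → Set ℕ) (hI : ∀ s e, (B I s e).Infinite) :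
    ∃ F : Filter ℕ, F ≤ cofinite ∧ (∀ s e, ∃ᶠ n in F, n ∈ B I s e) ∧
      ∀ X : Set ℕ, X ∈ F ∨ ∃ s e, ∀ᶠ n in F, n ∈ X → n ∉ B I s e := by
  let Qf : Set (Filter ℕ)ᵒᵈ := {F | ∀ s e, ∃ᶠ n in OrderDual.ofDual F, n ∈ B I s e}
  have h0 : OrderDual.toDual (cofinite : Filter ℕ) ∈ Qf := by
    intro s e
    show ∃ᶠ n in cofinite, n ∈ B I s e
    exact frequently_cofinite_iff_infinite.2 (hI s e)
  obtain ⟨M, hM1, hM2⟩ := zorn_le_nonempty₀ Qf (by
    intro c hc hchain y hy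
    refine ⟨OrderDual.toDual (⨅ G ∈ c, (OrderDual.ofDual G : Filter ℕ)), ?_, ?_⟩
    · have hdir : DirectedOn ((fun G : (Filter ℕ)ᵒᵈ => OrderDual.ofDual G) ⁻¹'o (· ≥ ·)) c := by
        intro a ha b hb
        rcases hchain.total ha hb with h | h
        · exact ⟨b, hb, h, le_refl _⟩
        · exact ⟨a, ha, le_refl _, h⟩
      intro s e hcon
      have h1 : (B I s e)ᶜ ∈ ⨅ G ∈ c, (OrderDual.ofDual G : Filter ℕ) := hcon
      rw [mem_biInf_of_directed hdir ⟨y, hy⟩] at h1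
      obtain ⟨a, ha, h2⟩ := h1
      exact hc ha s e h2
    · intro z hz
      exact iInf₂_le (f := fun (G : (Filter ℕ)ᵒᵈ) (_ : G ∈ c) => (OrderDual.ofDual G : Filter ℕ))
        z hz) _ h0
  refine ⟨OrderDual.ofDual M, hM1, hM2.1, fun X => ?_⟩
  by_cases hX : OrderDual.toDual (OrderDual.ofDual M ⊓ 𝓟 X) ∈ Qf
  · left
    have h1 : M ≤ OrderDual.toDual (OrderDual.ofDual M ⊓ 𝓟 X) :=
      show OrderDual.ofDual M ⊓ 𝓟 X ≤ OrderDual.ofDual M from inf_le_left
    have h2 : OrderDual.toDual (OrderDual.ofDual M ⊓ 𝓟 X) ≤ M := hM2.2 hX h1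
    have h3 : OrderDual.ofDual M ≤ OrderDual.ofDual M ⊓ 𝓟 X := h2
    exact h3 (mem_inf_of_right (mem_principal_self X))
  · right
    have h1 : ¬ ∀ s e, ∃ᶠ n in OrderDual.ofDual M ⊓ 𝓟 X, n ∈ B I s e := hX
    push Not at h1
    obtain ⟨s, e, h2⟩ := h1
    refine ⟨s, e, ?_⟩
    exact eventually_inf_principal.1 h2

variable (I : K → Set ℕ) (F : Filter ℕ)

/-- The Boolean combination is contained in `X` modulo `F`. -/
def Sub (s : Finset K) (e : K → Bool) (X : Set ℕ) : Prop := ∀ᶠ n in F, n ∈ B I s e → n ∈ X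

/-- The Boolean combination decides `X`. -/
def Dec (s : Finset K) (e : K → Bool) (X : Set ℕ) : Prop := Sub I F s e X ∨ Sub I F s e Xᶜ

/-- The combinations with indices in `S` deciding `X` are dense among those with indices in `S`. -/
def DS (S : Set K) (X : Set ℕ) : Prop :=
  ∀ (s₀ : Finset K) (e₀ : K → Bool), (s₀ : Set K) ⊆ S → ∃ (s : Finset K) (e : K → Bool),
    s₀ ⊆ s ∧ (s : Set K) ⊆ S ∧ (∀ ξ ∈ s₀, e ξ = e₀ ξ) ∧ Dec I F s e X

variable {I F}

theorem B_mono {s s' : Finset K} {e e' : K → Bool} (h : s ⊆ s') (he : ∀ ξ ∈ s, e' ξ = e ξ) :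
    B I s' e' ⊆ B I s e := fun n hn ξ hξ => by
  have := hn ξ (h hξ)
  rwa [he ξ hξ] at this

theorem Dec.mono {s s' : Finset K} {e e' : K → Bool} (h : s ⊆ s') (he : ∀ ξ ∈ s, e' ξ = e ξ)
    {X : Set ℕ} (hd : Dec I F s e X) : Dec I F s' e' X := by
  rcases hd with hd | hd
  · left
    filter_upwards [hd] with n hn h'
    exact hn (B_mono h he h')
  · right
    filter_upwards [hd] with n hn h'
    exact hn (B_mono h he h')

theorem dense (hfr : ∀ s e, ∃ᶠ n in F, n ∈ B I s e)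
    (hmax : ∀ X : Set ℕ, X ∈ F ∨ ∃ s e, ∀ᶠ n in F, n ∈ X → n ∉ B I s e) (X : Set ℕ)
    (s₀ : Finset K) (e₀ : K → Bool) : ∃ (s : Finset K) (e : K → Bool),
      s₀ ⊆ s ∧ (∀ ξ ∈ s₀, e ξ = e₀ ξ) ∧ Dec I F s e X := by
  classical
  rcases hmax (X ∪ (B I s₀ e₀)ᶜ) with h | ⟨s₁, e₁, h⟩
  · refine ⟨s₀, e₀, Finset.Subset.refl _, fun _ _ => rfl, Or.inl ?_⟩
    filter_upwards [h] with n hn hB
    rcases hn with hn | hn
    · exact hn
    · exact absurd hB hn
  · have hcomp : ∀ ξ ∈ s₀, ξ ∈ s₁ → e₀ ξ = e₁ ξ := by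
      intro ξ h0 h1
      by_contra hne
      apply hfr s₁ e₁
      filter_upwards [h] with n hn hB
      refine hn (Or.inr fun hB0 => ?_) hB
      have h2 := hB0 ξ h0
      have h3 := hB ξ h1
      have h4 : e₀ ξ = true ↔ e₁ ξ = true := h2.symm.trans h3
      exact hne (Bool.eq_iff_iff.2 h4)
    refine ⟨s₀ ∪ s₁, fun ξ => if ξ ∈ s₀ then e₀ ξ else e₁ ξ, Finset.subset_union_left,
      fun ξ hξ => if_pos hξ, Or.inr ?_⟩
    filter_upwards [h] with n hn hB
    have hB1 : n ∈ B I s₁ e₁ := B_mono Finset.subset_union_right (by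
      intro ξ hξ
      show (if ξ ∈ s₀ then e₀ ξ else e₁ ξ) = e₁ ξ
      split_ifs with h'
      · exact hcomp ξ h' hξ
      · rfl) hB
    intro hX
    exact hn (Or.inl hX) hB1

theorem DS.mono {S T : Set K} (h : S ⊆ T) {X : Set ℕ} (hd : DS I F S X) : DS I F T X := by
  classical
  intro s₀ e₀ hs₀
  obtain ⟨s, e, h1, h2, h3, h4⟩ := hd (s₀.filter fun ξ => ξ ∈ S) e₀ (by
    intro ξ hξ
    exact (Finset.mem_filter.1 (Finset.mem_coe.1 hξ)).2)
  refine ⟨s₀ ∪ s, fun ξ => if ξ ∈ S then e ξ else e₀ ξ, Finset.subset_union_left, ?_, ?_, ?_⟩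
  · intro ξ hξ
    rcases Finset.mem_union.1 (Finset.mem_coe.1 hξ) with h | h'
    · exact hs₀ h
    · exact h (h2 h')
  · intro ξ hξ
    show (if ξ ∈ S then e ξ else e₀ ξ) = e₀ ξ
    split_ifs with h'
    · exact h3 ξ (Finset.mem_filter.2 ⟨hξ, h'⟩)
    · rfl
  · exact h4.mono Finset.subset_union_right fun ξ hξ => if_pos (h2 hξ)

theorem DS.compl {S : Set K} {X : Set ℕ} (hd : DS I F S X) : DS I F S Xᶜ := by
  intro s₀ e₀ hs₀
  obtain ⟨s, e, h1, h2, h3, h4⟩ := hd s₀ e₀ hs₀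
  refine ⟨s, e, h1, h2, h3, ?_⟩
  rcases h4 with h | h
  · right; rwa [compl_compl]
  · exact Or.inl h

theorem DS.inter {S : Set K} {X Y : Set ℕ} (hX : DS I F S X) (hY : DS I F S Y) :
    DS I F S (X ∩ Y) := by
  intro s₀ e₀ hs₀
  obtain ⟨s, e, h1, h2, h3, h4⟩ := hX s₀ e₀ hs₀
  obtain ⟨s', e', h1', h2', h3', h4'⟩ := hY s e h2
  refine ⟨s', e', h1.trans h1', h2', fun ξ hξ => (h3' ξ (h1 hξ)).trans (h3 ξ hξ), ?_⟩
  have h5 := h4.mono h1' h3'
  rcases h5 with h5 | h5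
  · rcases h4' with h6 | h6
    · left
      filter_upwards [h5, h6] with n hn hn' hB
      exact ⟨hn hB, hn' hB⟩
    · right
      filter_upwards [h6] with n hn hB h
      exact hn hB h.2
  · right
    filter_upwards [h5] with n hn hB h
    exact hn hB h.1

theorem DS.univ' (S : Set K) : DS I F S Set.univ := fun s₀ e₀ hs₀ =>
  ⟨s₀, e₀, Finset.Subset.refl _, hs₀, fun _ _ => rfl,
    Or.inl (Eventually.of_forall fun _ _ => mem_univ _)⟩

theorem DS.gen {S : Set K} {α : K} (hα : α ∈ S) : DS I F S (I α) := by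
  classical
  intro s₀ e₀ hs₀
  refine ⟨insert α s₀, e₀, Finset.subset_insert _ _, ?_, fun _ _ => rfl, ?_⟩
  · intro ξ hξ
    rcases Finset.mem_insert.1 (Finset.mem_coe.1 hξ) with h | h
    · rw [h]; exact hα
    · exact hs₀ h
  · cases he : e₀ α with
    | true =>
      left
      refine Eventually.of_forall fun n hn => ?_
      exact (hn α (Finset.mem_insert_self _ _)).2 he
    | false =>
      right
      refine Eventually.of_forall fun n hn h => ?_
      have := (hn α (Finset.mem_insert_self _ _)).1 h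
      rw [he] at this
      exact absurd this (by simp)

/-- Iterated closure of the empty set under a function on pairs of finite sets. -/
def cl (c : Finset K → Finset K → Finset K) : ℕ → Set K
  | 0 => ∅
  | n + 1 => cl c n ∪ {ξ | ∃ s t : Finset K, (s : Set K) ⊆ cl c n ∧ (t : Set K) ⊆ cl c n ∧ ξ ∈ c s t}

theorem countable_finsets {S : Set K} (hS : S.Countable) : {s : Finset K | (s : Set K) ⊆ S}.Countable := by
  classical
  have h1 : Countable ↥S := hS.to_subtype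
  have h2 : Countable (Finset ↥S) := inferInstance
  refine (Set.countable_range (fun s : Finset ↥S =>
    s.map ⟨Subtype.val, Subtype.val_injective⟩)).mono ?_
  intro r hr
  exact ⟨r.subtype (fun x => x ∈ S), Finset.subtype_map_of_mem fun x hx => hr hx⟩

theorem cl_countable (c : Finset K → Finset K → Finset K) (n : ℕ) : (cl c n).Countable := by
  induction n with
  | zero => exact Set.countable_empty
  | succ n ih =>
    have h1 := countable_finsets ih
    refine ih.union ?_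
    refine (h1.biUnion (t := fun s _ => ⋃ t ∈ {t : Finset K | (t : Set K) ⊆ cl c n},
      (c s t : Set K)) fun s _ => h1.biUnion fun t _ => Finset.countable_toSet _).mono ?_
    rintro ξ ⟨s, t, hs, ht, hξ⟩
    exact mem_iUnion₂.2 ⟨s, hs, mem_iUnion₂.2 ⟨t, ht, hξ⟩⟩

theorem cl_mono (c : Finset K → Finset K → Finset K) : Monotone (cl c) :=
  monotone_nat_of_le_succ fun n => subset_union_left

theorem exists_countable (hfr : ∀ s e, ∃ᶠ n in F, n ∈ B I s e)
    (hmax : ∀ X : Set ℕ, X ∈ F ∨ ∃ s e, ∀ᶠ n in F, n ∈ X → n ∉ B I s e) (X : Set ℕ) :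
    ∃ S : Set K, S.Countable ∧ DS I F S X := by
  classical
  have hch : ∀ s₀ t₀ : Finset K, ∃ (s : Finset K) (e : K → Bool),
      s₀ ⊆ s ∧ (∀ ξ ∈ s₀, e ξ = decide (ξ ∈ t₀)) ∧ Dec I F s e X :=
    fun s₀ t₀ => dense hfr hmax X s₀ _
  choose cs ce hc1 hc2 hc3 using hch
  refine ⟨⋃ n, cl cs n, Set.countable_iUnion (cl_countable cs), fun s₀ e₀ hs₀ => ?_⟩
  -- find a level containing `s₀`
  have hlev : ∃ n, (s₀ : Set K) ⊆ cl cs n := by
    have h1 : ∀ ξ ∈ s₀, ∃ n, ξ ∈ cl cs n := fun ξ hξ => mem_iUnion.1 (hs₀ hξ)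
    choose! f hf using h1
    refine ⟨s₀.sup f, fun ξ hξ => ?_⟩
    exact cl_mono cs (Finset.le_sup hξ) (hf ξ hξ)
  obtain ⟨n, hn⟩ := hlev
  let t₀ := s₀.filter fun ξ => e₀ ξ = true
  refine ⟨cs s₀ t₀, ce s₀ t₀, hc1 _ _, ?_, ?_, hc3 _ _⟩
  · intro ξ hξ
    refine mem_iUnion.2 ⟨n + 1, Or.inr ⟨s₀, t₀, hn, ?_, hξ⟩⟩
    exact fun η hη => hn (Finset.mem_filter.1 (Finset.mem_coe.1 hη)).1
  · intro ξ hξ
    rw [hc2 _ _ ξ hξ]
    show decide (ξ ∈ s₀.filter fun ξ => e₀ ξ = true) = e₀ ξ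
    cases he : e₀ ξ <;> simp [hξ, he]

variable [LinearOrder K]

theorem key (hfr : ∀ s e, ∃ᶠ n in F, n ∈ B I s e)
    (hmax : ∀ X : Set ℕ, X ∈ F ∨ ∃ s e, ∀ᶠ n in F, n ∈ X → n ∉ B I s e)
    {U : Ultrafilter ℕ} (hU : (U : Filter ℕ) ≤ F) {X : Set ℕ} (hX : X ∈ U) {α : K}
    (hd : DS I F (Set.Iio α) X) : ¬ X ⊆ I α ∧ ¬ X ⊆ (I α)ᶜ := by
  classical
  have hXc : Xᶜ ∉ F := fun h => by
    have h1 : Xᶜ ∈ U := hU h
    have h2 := U.nonempty_of_mem (inter_mem hX h1)
    rw [inter_compl_self] at h2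
    exact Set.not_nonempty_empty h2
  obtain ⟨s₁, e₁, h1⟩ := (hmax Xᶜ).resolve_left hXc
  obtain ⟨s, e, h2, h3, h4, h5⟩ := hd (s₁.filter fun ξ => ξ < α) e₁ (by
    intro ξ hξ
    exact (Finset.mem_filter.1 (Finset.mem_coe.1 hξ)).2)
  have h6 : Sub I F s e X := by
    rcases h5 with h5 | h5
    · exact h5
    · exfalso
      apply hfr (s ∪ s₁) (fun ξ => if ξ < α then e ξ else e₁ ξ)
      filter_upwards [h1, h5] with n hn1 hn5 hB
      have hB1 : n ∈ B I s e := B_mono Finset.subset_union_left (by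
        intro ξ hξ
        exact if_pos (h3 hξ)) hB
      have hB2 : n ∈ B I s₁ e₁ := B_mono Finset.subset_union_right (by
        intro ξ hξ
        show (if ξ < α then e ξ else e₁ ξ) = e₁ ξ
        split_ifs with h'
        · exact h4 ξ (Finset.mem_filter.2 ⟨hξ, h'⟩)
        · rfl) hB
      exact hn1 (hn5 hB1) hB2
  have hα : α ∉ s := fun h => lt_irrefl α (h3 h)
  have hgen : ∀ b : Bool, ∃ᶠ n in F, n ∈ X ∧ (n ∈ I α ↔ b = true) := by
    intro b hcon
    apply hfr (insert α s) (Function.update e α b)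
    filter_upwards [hcon, h6] with n hn hn6 hB
    have hB1 : n ∈ B I s e := B_mono (Finset.subset_insert _ _) (by
      intro ξ hξ
      have : ξ ≠ α := fun h => hα (h ▸ hξ)
      rw [Function.update_of_ne this]) hB
    refine hn ⟨hn6 hB1, ?_⟩
    have := hB α (Finset.mem_insert_self _ _)
    rwa [Function.update_self] at this
  constructor
  · intro h
    obtain ⟨n, hn1, hn2⟩ := (hgen false).exists
    exact absurd (hn2.1 (h hn1)) (by simp)
  · intro h
    obtain ⟨n, hn1, hn2⟩ := (hgen true).exists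
    exact h hn1 (hn2.2 rfl)

theorem main (A : K → Set ℕ) (hA : Function.Injective A)
    (hK : ∀ k : K, (Set.Iic k).Countable) (hunc : ¬ (Set.univ : Set K).Countable) :
    ∃ J : K → Set (Set ℕ), (∀ α, IsIdeal (J α)) ∧ StrictMono J ∧ IsMaximalIdeal (⋃ α, J α) := by
  classical
  obtain ⟨I, hI⟩ := exists_indep A hA
  obtain ⟨F, -, hfr, hmax⟩ := exists_max I hI
  have hne : NeBot F := by
    refine ⟨fun hbot => ?_⟩
    apply hfr ∅ (fun _ => true)
    rw [hbot]
    exact eventually_bot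
  let U : Ultrafilter ℕ := Ultrafilter.of F
  have hU : (U : Filter ℕ) ≤ F := Ultrafilter.of_le F
  have hbdd : ∀ S : Set K, S.Countable → ∃ β, S ⊆ Set.Iio β := by
    intro S hS
    by_contra hcon
    push Not at hcon
    apply hunc
    have : (Set.univ : Set K) ⊆ ⋃ ξ ∈ S, Set.Iic ξ := by
      intro β _
      obtain ⟨ξ, hξ, hξ2⟩ := Set.not_subset.1 (hcon β)
      exact mem_iUnion₂.2 ⟨ξ, hξ, not_lt.1 hξ2⟩
    exact (hS.biUnion fun ξ _ => hK ξ).mono this
  let J : K → Set (Set ℕ) := fun α => {Z | ∃ X ∈ U, DS I F (Set.Iio α) X ∧ Z ⊆ Xᶜ}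
  have hIdeal : ∀ α, IsIdeal (J α) := by
    intro α
    refine ⟨⟨Set.univ, univ_mem, DS.univ' _, by simp⟩, ?_, ?_, ?_⟩
    · rintro ⟨X, hX, -, hsub⟩
      obtain ⟨x, hx⟩ := U.nonempty_of_mem hX
      exact hsub (mem_univ x) hx
    · rintro Z ⟨X, hX, hd, hsub⟩ Y hY
      exact ⟨X, hX, hd, hY.trans hsub⟩
    · rintro Z ⟨X, hX, hd, hsub⟩ Z' ⟨X', hX', hd', hsub'⟩
      refine ⟨X ∩ X', inter_mem hX hX', hd.inter hd', ?_⟩
      rintro x (hx | hx) hx2
      · exact hsub hx hx2.1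
      · exact hsub' hx hx2.2
  have hUnion : ∀ Z, Z ∈ (⋃ α, J α) ↔ Zᶜ ∈ U := by
    intro Z
    constructor
    · intro hZ
      obtain ⟨α, X, hX, -, hsub⟩ := mem_iUnion.1 hZ
      exact mem_of_superset hX (subset_compl_comm.1 hsub)
    · intro hZ
      obtain ⟨S, hS, hd⟩ := exists_countable hfr hmax (Zᶜ)
      obtain ⟨β, hβ⟩ := hbdd S hS
      exact mem_iUnion.2 ⟨β, Zᶜ, hZ, hd.mono hβ, by rw [compl_compl]⟩
  refine ⟨J, hIdeal, ?_, ?_, ?_⟩
  · intro α β hαβ
    refine lt_of_le_of_ne ?_ ?_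
    · rintro Z ⟨X, hX, hd, hsub⟩
      exact ⟨X, hX, hd.mono (Set.Iio_subset_Iio hαβ.le), hsub⟩
    · intro heq
      have hk : ∀ X ∈ U, DS I F (Set.Iio α) X → ¬ X ⊆ I α ∧ ¬ X ⊆ (I α)ᶜ :=
        fun X hX hd => key hfr hmax hU hX hd
      rcases U.mem_or_compl_mem (I α) with h | h
      · have h1 : (I α)ᶜ ∈ J β := ⟨I α, h, DS.gen hαβ, Subset.refl _⟩
        rw [← heq] at h1
        obtain ⟨X, hX, hd, hsub⟩ := h1
        exact (hk X hX hd).1 (compl_subset_compl.1 hsub)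
      · have h1 : I α ∈ J β := ⟨(I α)ᶜ, h,
          DS.compl (DS.gen (I := I) (F := F) (S := Set.Iio β) hαβ), by rw [compl_compl]⟩
        rw [← heq] at h1
        obtain ⟨X, hX, hd, hsub⟩ := h1
        exact (hk X hX hd).2 (subset_compl_comm.1 hsub)
  · refine ⟨(hUnion _).2 (by rw [compl_empty]; exact univ_mem), ?_, ?_, ?_⟩
    · intro h
      have := (hUnion _).1 h
      rw [compl_univ] at this
      exact U.empty_notMem this
    · intro Z hZ Y hY
      rw [hUnion] at hZ ⊢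
      exact mem_of_superset hZ (compl_subset_compl.2 hY)
    · intro Z hZ Y hY
      rw [hUnion] at hZ hY ⊢
      rw [compl_union]
      exact inter_mem hZ hY
  · intro J' hJ' hsub
    refine Subset.antisymm ?_ hsub
    intro Z hZ
    rw [hUnion]
    by_contra hcon
    have h1 : Z ∈ U := by
      have := (Ultrafilter.compl_mem_iff_notMem).2 hcon
      rwa [compl_compl] at this
    have h2 : Zᶜ ∈ J' := hsub ((hUnion _).2 (by rwa [compl_compl]))
    have h3 := hJ'.2.2.2 Z hZ _ h2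
    rw [union_compl_self] at h3
    exact hJ'.2.1 h3

end Construction

/-- There is a strictly increasing sequence of length `ω₁` of ideals on `ω` whose union is a maximal
ideal. -/
theorem result : ∃ J : Set.Iio (ω₁ : Ordinal.{0}) → Set (Set ℕ),
    (∀ α, IsIdeal (J α)) ∧ StrictMono J ∧ IsMaximalIdeal (⋃ α, J α) := by
  have h1 : Cardinal.lift.{0} #(Set.Iio (ω₁ : Ordinal.{0})) ≤ Cardinal.lift.{1} #(Set ℕ) := by
    rw [Cardinal.mk_Iio_ordinal]
    simp only [Cardinal.lift_id, Cardinal.mk_set, Cardinal.mk_nat, Cardinal.lift_lift]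
    refine Cardinal.lift_le.2 ?_
    rw [Ordinal.card_omega]
    rw [Cardinal.two_power_aleph0]
    exact Cardinal.aleph_one_le_continuum
  obtain ⟨A⟩ := Cardinal.lift_mk_le'.1 h1
  have hcard : ∀ o : Ordinal.{0}, o < ω₁ → (Set.Iio o).Countable := by
    intro o ho
    rw [Cardinal.countable_iff_lt_aleph_one, Cardinal.mk_Iio_ordinal]
    have h2 : o.card < ℵ₁ := by
      rw [← Cardinal.lt_ord, Cardinal.ord_aleph]
      exact ho
    have h3 := Cardinal.lift_lt.{0, 1}.2 h2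
    rwa [Cardinal.lift_aleph, Ordinal.lift_one] at h3
  refine main (fun k => A k) A.injective ?_ ?_
  · intro k
    have h2 : (Set.Iio (Order.succ (k : Ordinal.{0}))).Countable :=
      hcard _ ((Cardinal.isSuccLimit_omega 1).succ_lt k.2)
    refine (h2.preimage Subtype.val_injective).mono ?_
    intro x hx
    exact Order.lt_succ_iff.2 (show (x : Ordinal.{0}) ≤ k from hx)
  · intro h
    have h2 : (Set.Iio (ω₁ : Ordinal.{0})).Countable := Set.countable_univ_iff.1 h |>.to_set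
    rw [Cardinal.countable_iff_lt_aleph_one, Cardinal.mk_Iio_ordinal, Ordinal.card_omega,
      Cardinal.lift_aleph, Ordinal.lift_one] at h2
    exact lt_irrefl _ h2

end Pool.Agent.Results.MP_ea2126_lc.OmegaOneChain
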